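import Mathlib

/-! Section 5 of Neg/Paper.md: the two bounds for `psi`, pointwise form. (helper91)

`h = H(a)`, `h1 = H'(a)`, `q` = value of `q^` at a point, `H = q^2`. -/

set_option autoImplicit false

open Complex

namespace Pool.Agent.MP_c3d375_an.Neg


/-- `n = nu + 1/nu`, `nu = conj h` -/
noncomputable def nN (h : ℂ) : ℂ := (starRingEnd ℂ) h + ((starRingEnd ℂ) h)⁻¹

/-- `c5 = (kappa1/4)(1-nu^{-2})`, `kappa1 = a conj h1` -/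
noncomputable def c5 (a : ℝ) (h h1 : ℂ) : ℂ := (a * (starRingEnd ℂ) h1 / 4) * (1 - (((starRingEnd ℂ) h) ^ 2)⁻¹)

/-- `psi = c5 q / (H + 1/H + n)`, `H = q²` -/
noncomputable def psiF (a : ℝ) (h h1 q : ℂ) : ℂ := c5 a h h1 * q / (q ^ 2 + (q ^ 2)⁻¹ + nN h)

theorem nN_re (h : ℂ) : (nN h).re = h.re * (1 + 1 / ‖h‖ ^ 2) := by
  rw [nN, Complex.add_re, Complex.inv_re, Complex.conj_re, Complex.normSq_conj, Complex.sq_norm]
  ring

theorem norm_c5_le {a : ℝ} {h h1 : ℂ} (ha0 : 0 ≤ a) (ha1 : a < 1) (hh : 0 < h.re)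
    (hs : ‖h1‖ ≤ 2 * h.re / (1 - a ^ 2)) : ‖c5 a h h1‖ ≤ a / (2 * (1 - a ^ 2)) * (nN h).re := by
  have hh0 : h ≠ 0 := by rintro rfl; simp at hh
  have hn : 0 < ‖h‖ := norm_pos_iff.2 hh0
  have h1a : 0 < 1 - a ^ 2 := by nlinarith
  rw [c5, norm_mul, norm_div, norm_mul, Complex.norm_real, Real.norm_of_nonneg ha0, Complex.norm_ofNat,
    RCLike.norm_conj, nN_re]
  have e1 : ‖1 - (((starRingEnd ℂ) h) ^ 2)⁻¹‖ ≤ 1 + 1 / ‖h‖ ^ 2 := by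
    refine (norm_sub_le _ _).trans ?_
    rw [norm_one, norm_inv, norm_pow, RCLike.norm_conj, one_div]
  calc a * ‖h1‖ / 4 * ‖1 - (((starRingEnd ℂ) h) ^ 2)⁻¹‖
      ≤ a * (2 * h.re / (1 - a ^ 2)) / 4 * (1 + 1 / ‖h‖ ^ 2) := by gcongr
    _ = _ := by field_simp; ring

/-- denominators: `|H + 1/H + n| ≥ Re n` -/
theorem norm_den_ge {h q : ℂ} (hq2 : 0 ≤ (q ^ 2).re) : (nN h).re ≤ ‖q ^ 2 + (q ^ 2)⁻¹ + nN h‖ := by
  refine le_trans ?_ (Complex.re_le_norm _)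
  have : 0 ≤ ((q ^ 2)⁻¹).re := by
    rw [Complex.inv_re]; exact div_nonneg hq2 (Complex.normSq_nonneg _)
  simp only [Complex.add_re]
  linarith

theorem nN_re_pos {h : ℂ} (hh : 0 < h.re) : 0 < (nN h).re := by
  rw [nN_re]
  have : 0 ≤ 1 / ‖h‖ ^ 2 := by positivity
  positivity

theorem norm_c5_div_le {a : ℝ} {h h1 q : ℂ} (ha0 : 0 ≤ a) (ha1 : a < 1) (hh : 0 < h.re)
    (hs : ‖h1‖ ≤ 2 * h.re / (1 - a ^ 2)) (hq2 : 0 ≤ (q ^ 2).re) :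
    ‖c5 a h h1 / (q ^ 2 + (q ^ 2)⁻¹ + nN h)‖ ≤ a / (2 * (1 - a ^ 2)) := by
  have h1a : 0 < 1 - a ^ 2 := by nlinarith
  have hn := nN_re_pos hh
  have hd := norm_den_ge (h := h) hq2
  rw [norm_div, div_le_iff₀ (lt_of_lt_of_le hn hd)]
  refine (norm_c5_le ha0 ha1 hh hs).trans ?_
  gcongr

/-- (A), first half -/
theorem norm_psiF_le_norm {a : ℝ} {h h1 q : ℂ} (ha0 : 0 ≤ a) (ha1 : a < 1) (hh : 0 < h.re)
    (hs : ‖h1‖ ≤ 2 * h.re / (1 - a ^ 2)) (hq2 : 0 ≤ (q ^ 2).re) :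
    ‖psiF a h h1 q‖ ≤ a / (2 * (1 - a ^ 2)) * ‖q‖ := by
  have e : psiF a h h1 q = c5 a h h1 / (q ^ 2 + (q ^ 2)⁻¹ + nN h) * q := by
    rw [psiF]; ring
  rw [e, norm_mul]
  gcongr
  exact norm_c5_div_le ha0 ha1 hh hs hq2

theorem norm_nN_le {a : ℝ} {h : ℂ} (hb : ‖h‖ ≤ 3 / (1 - a)) (hb' : ‖h⁻¹‖ ≤ 3 / (1 - a)) :
    ‖nN h‖ ≤ 6 / (1 - a) := by
  rw [nN]
  refine (norm_add_le _ _).trans ?_
  rw [RCLike.norm_conj, ← map_inv₀, RCLike.norm_conj]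
  calc _ ≤ 3 / (1 - a) + 3 / (1 - a) := add_le_add hb hb'
    _ = _ := by ring

theorem norm_c5_le' {a : ℝ} {h h1 : ℂ} (ha0 : 1 / 2 ≤ a) (ha1 : a < 1) (hh : 0 < h.re)
    (hs : ‖h1‖ ≤ 2 * h.re / (1 - a ^ 2)) (hb : ‖h‖ ≤ 3 / (1 - a)) (hb' : ‖h⁻¹‖ ≤ 3 / (1 - a)) :
    ‖c5 a h h1‖ ≤ 3 / 2 / (1 - a) ^ 2 := by
  have h1a : 0 < 1 - a := by linarith
  have h1a2 : 0 < 1 - a ^ 2 := by nlinarith
  refine (norm_c5_le (by linarith) ha1 hh hs).trans ?_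
  have h2 : (nN h).re ≤ 6 / (1 - a) := (Complex.re_le_norm _).trans (norm_nN_le hb hb')
  have h3 : a / (2 * (1 - a ^ 2)) ≤ 1 / (4 * (1 - a)) := by
    rw [div_le_div_iff₀ (by positivity) (by positivity)]
    nlinarith
  calc a / (2 * (1 - a ^ 2)) * (nN h).re ≤ 1 / (4 * (1 - a)) * (6 / (1 - a)) := by
        gcongr
        exact (nN_re_pos hh).le
    _ = _ := by field_simp; ring

/-- large `H`: `|H + 1/H + n| ≥ |H| / 3` -/
theorem norm_den_ge_large {a : ℝ} {h q : ℂ} (ha0 : 1 / 2 ≤ a) (ha1 : a < 1)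
    (hb : ‖h‖ ≤ 3 / (1 - a)) (hb' : ‖h⁻¹‖ ≤ 3 / (1 - a)) (hq : 16 / (1 - a) ≤ ‖q ^ 2‖) :
    ‖q ^ 2‖ / 3 ≤ ‖q ^ 2 + (q ^ 2)⁻¹ + nN h‖ := by
  have h1a : 0 < 1 - a := by linarith
  have h32 : 32 ≤ 16 / (1 - a) := by
    rw [le_div_iff₀ h1a]; linarith
  have hn := norm_nN_le hb hb'
  have h6 : 6 / (1 - a) = 6 / 16 * (16 / (1 - a)) := by field_simp
  have hinv : ‖(q ^ 2)⁻¹‖ ≤ 1 / 32 := by
    rw [norm_inv, ← one_div]
    exact one_div_le_one_div_of_le (by norm_num) (by linarith)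
  have h2 : ‖q ^ 2‖ ≤ ‖q ^ 2 + (q ^ 2)⁻¹ + nN h‖ + ‖(q ^ 2)⁻¹‖ + ‖nN h‖ := by
    have e : q ^ 2 = (q ^ 2 + (q ^ 2)⁻¹ + nN h) - (q ^ 2)⁻¹ - nN h := by ring
    calc ‖q ^ 2‖ = ‖(q ^ 2 + (q ^ 2)⁻¹ + nN h) - (q ^ 2)⁻¹ - nN h‖ := by rw [← e]
      _ ≤ ‖(q ^ 2 + (q ^ 2)⁻¹ + nN h) - (q ^ 2)⁻¹‖ + ‖nN h‖ := norm_sub_le _ _
      _ ≤ _ := by gcongr; exact norm_sub_le _ _
  linarith

/-- (B): `|psi| ≤ 2 (1-a)^{-3/2}` -/
theorem norm_psiF_le {a : ℝ} {h h1 q : ℂ} (ha0 : 1 / 2 ≤ a) (ha1 : a < 1) (hh : 0 < h.re)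
    (hs : ‖h1‖ ≤ 2 * h.re / (1 - a ^ 2)) (hb : ‖h‖ ≤ 3 / (1 - a)) (hb' : ‖h⁻¹‖ ≤ 3 / (1 - a))
    (hq2 : 0 ≤ (q ^ 2).re) :
    ‖psiF a h h1 q‖ ≤ 2 / ((1 - a) * Real.sqrt (1 - a)) := by
  have h1a : 0 < 1 - a := by linarith
  have h1a2 : 0 < 1 - a ^ 2 := by nlinarith
  have hsq : 0 < Real.sqrt (1 - a) := Real.sqrt_pos.2 h1a
  have hss : Real.sqrt (1 - a) * Real.sqrt (1 - a) = 1 - a := Real.mul_self_sqrt h1a.le
  have h3 : a / (2 * (1 - a ^ 2)) ≤ 1 / (4 * (1 - a)) := by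
    rw [div_le_div_iff₀ (by positivity) (by positivity)]
    nlinarith
  by_cases hq : 16 / (1 - a) ≤ ‖q ^ 2‖
  · have hd := norm_den_ge_large ha0 ha1 hb hb' hq
    have h16 : 0 < 16 / (1 - a) := by positivity
    have hqpos : 0 < ‖q ^ 2‖ := lt_of_lt_of_le h16 hq
    have hq0 : 0 < ‖q‖ := norm_pos_iff.2 (by rintro rfl; simp at hqpos)
    have hqs : 4 / Real.sqrt (1 - a) ≤ ‖q‖ := by
      rw [div_le_iff₀ hsq]
      rw [norm_pow, div_le_iff₀ h1a] at hq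
      by_contra hcon
      push Not at hcon
      have : (‖q‖ * Real.sqrt (1 - a)) ^ 2 < 4 ^ 2 := by
        exact pow_lt_pow_left₀ hcon (by positivity) two_ne_zero
      rw [mul_pow, sq (Real.sqrt (1 - a)), hss] at this
      linarith
    rw [psiF, norm_div, norm_mul]
    have h5 := norm_c5_le' ha0 ha1 hh hs hb hb'
    rw [div_le_iff₀ (lt_of_lt_of_le (by positivity) hd)]
    calc ‖c5 a h h1‖ * ‖q‖ ≤ 3 / 2 / (1 - a) ^ 2 * ‖q‖ := by gcongr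
      _ ≤ 2 / ((1 - a) * Real.sqrt (1 - a)) * (‖q ^ 2‖ / 3) := by
          rw [norm_pow]
          have : 3 / 2 / (1 - a) ^ 2 = 3 / 2 / ((1 - a) * Real.sqrt (1 - a)) * (1 / Real.sqrt (1 - a)) := by
            rw [div_mul_div_comm, mul_one]
            congr 1
            rw [mul_assoc, hss]; ring
          rw [this]
          have h6 : 1 / Real.sqrt (1 - a) ≤ ‖q‖ / 4 := by
            have : 1 / Real.sqrt (1 - a) = (4 / Real.sqrt (1 - a)) / 4 := by ring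
            rw [this]; gcongr
          calc 3 / 2 / ((1 - a) * Real.sqrt (1 - a)) * (1 / Real.sqrt (1 - a)) * ‖q‖
              ≤ 3 / 2 / ((1 - a) * Real.sqrt (1 - a)) * (‖q‖ / 4) * ‖q‖ := by gcongr
            _ = 3 / 8 * (‖q‖ ^ 2 / ((1 - a) * Real.sqrt (1 - a))) := by ring
            _ ≤ 2 / 3 * (‖q‖ ^ 2 / ((1 - a) * Real.sqrt (1 - a))) :=
              mul_le_mul_of_nonneg_right (by norm_num) (by positivity)
            _ = _ := by ring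
      _ ≤ _ := by gcongr
  · push Not at hq
    refine (norm_psiF_le_norm (by linarith) ha1 hh hs hq2).trans ?_
    have hqs : ‖q‖ ≤ 4 / Real.sqrt (1 - a) := by
      rw [le_div_iff₀ hsq]
      rw [norm_pow, lt_div_iff₀ h1a] at hq
      refine abs_le_of_sq_le_sq' (a := ‖q‖ * Real.sqrt (1 - a)) (b := 4) ?_ (by norm_num) |>.2
      rw [mul_pow, sq (Real.sqrt (1 - a)), hss]; linarith
    calc a / (2 * (1 - a ^ 2)) * ‖q‖ ≤ 1 / (4 * (1 - a)) * (4 / Real.sqrt (1 - a)) := by gcongr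
      _ = 1 / ((1 - a) * Real.sqrt (1 - a)) := by field_simp
      _ ≤ _ := by gcongr; norm_num

/-- `|c5 (1 + H) / (H + 1/H + n)| ≤ 9 / (1-a)²` -/
theorem norm_psiF_div_K_le {a : ℝ} {h h1 q : ℂ} (ha0 : 1 / 2 ≤ a) (ha1 : a < 1) (hh : 0 < h.re)
    (hs : ‖h1‖ ≤ 2 * h.re / (1 - a ^ 2)) (hb : ‖h‖ ≤ 3 / (1 - a)) (hb' : ‖h⁻¹‖ ≤ 3 / (1 - a))
    (hq2 : 0 ≤ (q ^ 2).re) :
    ‖c5 a h h1 * (1 + q ^ 2) / (q ^ 2 + (q ^ 2)⁻¹ + nN h)‖ ≤ 9 / (1 - a) ^ 2 := by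
  have h1a : 0 < 1 - a := by linarith
  have h1a2 : 0 < 1 - a ^ 2 := by nlinarith
  have h3 : a / (2 * (1 - a ^ 2)) ≤ 1 / (4 * (1 - a)) := by
    rw [div_le_div_iff₀ (by positivity) (by positivity)]
    nlinarith
  by_cases hq : 16 / (1 - a) ≤ ‖q ^ 2‖
  · have hd := norm_den_ge_large ha0 ha1 hb hb' hq
    have h16 : 0 < 16 / (1 - a) := by positivity
    have h32 : 32 ≤ 16 / (1 - a) := by
      rw [le_div_iff₀ h1a]; linarith
    have hqpos : 0 < ‖q ^ 2‖ := lt_of_lt_of_le h16 hq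
    rw [norm_div, norm_mul]
    have h5 := norm_c5_le' ha0 ha1 hh hs hb hb'
    rw [div_le_iff₀ (lt_of_lt_of_le (by positivity) hd)]
    have h7 : ‖1 + q ^ 2‖ ≤ 2 * ‖q ^ 2‖ := by
      refine (norm_add_le _ _).trans ?_
      rw [norm_one]; linarith
    calc ‖c5 a h h1‖ * ‖1 + q ^ 2‖ ≤ 3 / 2 / (1 - a) ^ 2 * (2 * ‖q ^ 2‖) := by gcongr
      _ = 9 / (1 - a) ^ 2 * (‖q ^ 2‖ / 3) := by ring
      _ ≤ _ := by gcongr
  · push Not at hq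
    have e : c5 a h h1 * (1 + q ^ 2) / (q ^ 2 + (q ^ 2)⁻¹ + nN h)
        = c5 a h h1 / (q ^ 2 + (q ^ 2)⁻¹ + nN h) * (1 + q ^ 2) := by ring
    rw [e, norm_mul]
    have h7 : ‖1 + q ^ 2‖ ≤ 17 / (1 - a) := by
      refine (norm_add_le _ _).trans ?_
      rw [norm_one]
      have h8 : 1 ≤ 1 / (1 - a) := by rw [le_div_iff₀ h1a]; linarith
      have h9 : 17 / (1 - a) = 1 / (1 - a) + 16 / (1 - a) := by ring
      rw [h9]; linarith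
    calc _ ≤ a / (2 * (1 - a ^ 2)) * (17 / (1 - a)) := by
            gcongr
            exact norm_c5_div_le (by linarith) ha1 hh hs hq2
      _ ≤ 1 / (4 * (1 - a)) * (17 / (1 - a)) := by gcongr
      _ = 17 / 4 / (1 - a) ^ 2 := by field_simp
      _ ≤ _ := by gcongr; norm_num

/-- (A), second half: `|q| |psi| ≤ 9 / (1-a)²` -/
theorem norm_mul_psiF_le {a : ℝ} {h h1 q : ℂ} (ha0 : 1 / 2 ≤ a) (ha1 : a < 1) (hh : 0 < h.re)
    (hs : ‖h1‖ ≤ 2 * h.re / (1 - a ^ 2)) (hb : ‖h‖ ≤ 3 / (1 - a)) (hb' : ‖h⁻¹‖ ≤ 3 / (1 - a))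
    (hq2 : 0 ≤ (q ^ 2).re) : ‖q‖ * ‖psiF a h h1 q‖ ≤ 9 / (1 - a) ^ 2 := by
  refine le_trans ?_ (norm_psiF_div_K_le ha0 ha1 hh hs hb hb' hq2)
  rw [← norm_mul]
  have e1 : q * psiF a h h1 q = c5 a h h1 / (q ^ 2 + (q ^ 2)⁻¹ + nN h) * q ^ 2 := by
    rw [psiF]; ring
  have e2 : c5 a h h1 * (1 + q ^ 2) / (q ^ 2 + (q ^ 2)⁻¹ + nN h)
        = c5 a h h1 / (q ^ 2 + (q ^ 2)⁻¹ + nN h) * (1 + q ^ 2) := by ring
  rw [e1, e2, norm_mul, norm_mul]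
  gcongr
  have : ‖q ^ 2‖ ^ 2 ≤ ‖1 + q ^ 2‖ ^ 2 := by
    rw [Complex.sq_norm, Complex.sq_norm, Complex.normSq_apply, Complex.normSq_apply, Complex.add_re, Complex.add_im,
      Complex.one_re, Complex.one_im]
    nlinarith
  exact abs_le_of_sq_le_sq' this (norm_nonneg _) |>.2

/-- The function `F_A = C' q + lambda / q - psi` lies in the open quarter plane. -/
theorem fA_quarter {C' lam Ca : ℝ} {q p : ℂ} (hC' : 0 < C') (hlam : 0 < lam) (hq : |q.im| < q.re)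
    (h1 : Real.sqrt 2 * ‖p‖ ≤ C' * ‖q‖) (h2 : ‖q‖ * ‖p‖ ≤ Ca) (h3 : Real.sqrt 2 * Ca ≤ lam) :
    |(C' * q + lam / q - p).im| < (C' * q + lam / q - p).re := by
  have hq0 : q ≠ 0 := by rintro rfl; simp at hq
  have hn : 0 < ‖q‖ := norm_pos_iff.2 hq0
  have hnn : 0 < ‖q‖ ^ 2 := by positivity
  have hns : Complex.normSq q = ‖q‖ ^ 2 := by rw [Complex.sq_norm]
  obtain ⟨q1, q2⟩ := abs_lt.1 hq
  have s2 : 0 ≤ Real.sqrt 2 := Real.sqrt_nonneg _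
  -- |p.re ± p.im| ≤ √2 |p|
  have hp : ∀ s : ℝ, s = 1 ∨ s = -1 → p.re + s * p.im ≤ Real.sqrt 2 * ‖p‖ := by
    intro s hs
    refine abs_le_of_sq_le_sq' (a := p.re + s * p.im) ?_ (by positivity) |>.2
    rw [mul_pow, Real.sq_sqrt (by norm_num), Complex.sq_norm, Complex.normSq_apply]
    rcases hs with rfl | rfl <;> nlinarith [sq_nonneg (p.re + p.im), sq_nonneg (p.re - p.im)]
  have key : ∀ s : ℝ, s = 1 ∨ s = -1 → 0 < C' * (q.re + s * q.im) + lam * (q.re - s * q.im) / ‖q‖ ^ 2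
      - (p.re + s * p.im) := by
    intro s hs
    have a1 : 0 < q.re + s * q.im := by rcases hs with rfl | rfl <;> linarith
    have a2 : 0 < q.re - s * q.im := by rcases hs with rfl | rfl <;> linarith
    have hp' := hp s hs
    have hs2 : s ^ 2 = 1 := by rcases hs with rfl | rfl <;> norm_num
    rcases le_total 0 (s * q.im) with hc | hc
    · -- `q.re + s q.im ≥ |q|`
      have b1 : ‖q‖ ≤ q.re + s * q.im := by
        refine abs_le_of_sq_le_sq' (a := ‖q‖) ?_ a1.le |>.2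
        rw [Complex.sq_norm, Complex.normSq_apply]
        have : (q.re + s * q.im) ^ 2 = q.re ^ 2 + 2 * q.re * (s * q.im) + s ^ 2 * q.im ^ 2 := by ring
        rw [this, hs2]
        have : 0 ≤ q.re * (s * q.im) := mul_nonneg (by linarith [abs_nonneg q.im]) hc
        nlinarith
      have b2 : C' * ‖q‖ ≤ C' * (q.re + s * q.im) := by gcongr
      have b3 : 0 < lam * (q.re - s * q.im) / ‖q‖ ^ 2 := by positivity
      linarith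
    · have b1 : ‖q‖ ≤ q.re - s * q.im := by
        refine abs_le_of_sq_le_sq' (a := ‖q‖) ?_ a2.le |>.2
        rw [Complex.sq_norm, Complex.normSq_apply]
        have : (q.re - s * q.im) ^ 2 = q.re ^ 2 - 2 * q.re * (s * q.im) + s ^ 2 * q.im ^ 2 := by ring
        rw [this, hs2]
        have : q.re * (s * q.im) ≤ 0 := mul_nonpos_of_nonneg_of_nonpos (by linarith [abs_nonneg q.im]) hc
        nlinarith
      have b2 : Real.sqrt 2 * ‖p‖ ≤ lam * (q.re - s * q.im) / ‖q‖ ^ 2 := by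
        rw [le_div_iff₀ hnn]
        calc Real.sqrt 2 * ‖p‖ * ‖q‖ ^ 2 = Real.sqrt 2 * (‖q‖ * ‖p‖) * ‖q‖ := by ring
          _ ≤ Real.sqrt 2 * Ca * ‖q‖ := by gcongr
          _ ≤ lam * (q.re - s * q.im) := by gcongr
      have b3 : 0 < C' * (q.re + s * q.im) := by positivity
      linarith
  have ere : (C' * q + lam / q - p).re = C' * q.re + lam * q.re / ‖q‖ ^ 2 - p.re := by
    rw [Complex.sub_re, Complex.add_re, Complex.div_re, hns]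
    simp
  have eim : (C' * q + lam / q - p).im = C' * q.im - lam * q.im / ‖q‖ ^ 2 - p.im := by
    rw [Complex.sub_im, Complex.add_im, Complex.div_im, hns]
    simp
    ring
  rw [abs_lt, ere, eim]
  have k1 := key 1 (Or.inl rfl)
  have k2 := key (-1) (Or.inr rfl)
  have e1 : lam * (q.re - 1 * q.im) / ‖q‖ ^ 2 = lam * q.re / ‖q‖ ^ 2 - lam * q.im / ‖q‖ ^ 2 := by ring
  have e2 : lam * (q.re - -1 * q.im) / ‖q‖ ^ 2 = lam * q.re / ‖q‖ ^ 2 + lam * q.im / ‖q‖ ^ 2 := by ring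
  rw [e1] at k1
  rw [e2] at k2
  constructor <;> linarith

end Pool.Agent.MP_c3d375_an.Neg
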