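import Pool.Agent.Lib.MP_c3d375_an.Neg.Iface
import Pool.Agent.Lib.MP_c3d375_an.Neg.H91.Psi

/-! PB and PA of Neg/Iface.lean. (helper91) -/

set_option autoImplicit false

open Complex Metric Set Filter Topology ComplexConjugate

namespace C3N.H91

open Pool.Agent.MP_c3d375_an.Neg (psiF c5 nN norm_psiF_le norm_psiF_le_norm norm_mul_psiF_le fA_quarter)

/-- the data at a point -/
theorem psi_data (hNU : NUStatement) {a : ℝ} (ha : 1 / 2 ≤ a) (ha1 : a < 1) {r : ℝ} (hr : 1 < r)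
    (hr' : r ≤ (1 + a) / (2 * a)) {q : Hol r} (hq : QH q) {z : ℂ} (hz : z ∈ ball (0 : ℂ) r) :
    ∃ h h1 : ℂ, 0 < h.re ∧ ‖h1‖ ≤ 2 * h.re / (1 - a ^ 2) ∧ ‖h‖ ≤ 3 / (1 - a) ∧ ‖h⁻¹‖ ≤ 3 / (1 - a) ∧
      |(fn (qh q) z).im| < (fn (qh q) z).re ∧ 0 < ((fn (qh q) z) ^ 2).re ∧
      fn (qi q) z = (fn (qh q) z)⁻¹ ∧ fn (psi q a) z = psiF a h h1 (fn (qh q) z) := by
  obtain ⟨n1, n2, n3, n4, n5, n6, n7, n8, n9, n10, n11⟩ := hNU a ha ha1 r hr hr' q hq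
  obtain ⟨m1, m2, m3, m4, m5, m6, m7⟩ := n11 z hz
  have ha0 : 0 < a := by linarith
  have h1a2 : 0 < 1 - a ^ 2 := by nlinarith
  set h : ℂ := (fn (qh q) a) ^ 2 with hh
  set h1 : ℂ := deriv (fun z => (fn (qh q) z) ^ 2) a with hh1
  have hnu : nu q a = conj h := rfl
  have hkap : kap q a = a * conj h1 := rfl
  set Q : ℂ := fn (qh q) z with hQ
  have hQz : Q = ((rho q)⁻¹ : ℂ) * fn q z := n3 z
  have hQz' : Q = (((rho q)⁻¹ : ℝ) : ℂ) * fn q z := by rw [hQz]; push_cast; ring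
  have hQre : 0 < Q.re := by
    rw [hQz', Complex.re_ofReal_mul]
    exact mul_pos (inv_pos.2 n1) (hq.re_pos z hz)
  have hQ2 : 0 < (Q ^ 2).re := by
    have : Q ^ 2 = (((rho q)⁻¹ ^ 2 : ℝ) : ℂ) * (fn q z) ^ 2 := by rw [hQz']; push_cast; ring
    rw [this, Complex.re_ofReal_mul]
    exact mul_pos (pow_pos (inv_pos.2 n1) 2) (hq.re_sq_pos z hz)
  have hQim : |Q.im| < Q.re := by
    rw [sq, Complex.mul_re] at hQ2
    refine abs_lt_of_sq_lt_sq (by nlinarith) hQre.le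
  have hQ0 : Q ≠ 0 := by
    intro h0
    rw [h0] at hQre
    simp at hQre
  have hQ1 : 1 + Q ^ 2 ≠ 0 := by
    intro h0
    have := congrArg Complex.re h0
    rw [Complex.add_re, Complex.one_re, Complex.zero_re] at this
    linarith
  have hnu0 : nu q a ≠ 0 := by
    intro h0
    rw [h0] at n5
    simp at n5
  have hre : h.re = (nu q a).re := by rw [hnu, Complex.conj_re]
  refine ⟨h, h1, by rw [hre]; exact n5, ?_, ?_, ?_, hQim, hQ2, m1, ?_⟩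
  · rw [hkap, norm_mul, RCLike.norm_conj, Complex.norm_real, Real.norm_of_nonneg ha0.le] at n8
    rw [hre]
    have e : 2 * a * (nu q a).re / (1 - a ^ 2) = a * (2 * (nu q a).re / (1 - a ^ 2)) := by ring
    rw [e] at n8
    exact le_of_mul_le_mul_left n8 ha0
  · rw [hnu, RCLike.norm_conj] at n6
    exact n6
  · rw [hnu, norm_inv, RCLike.norm_conj, ← norm_inv] at n7
    exact n7
  · have e1 : fn (psi q a) z = (kap q a / 4 * (1 - (nu q a)⁻¹ ^ 2)) *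
        (Q * (Q * (1 + Q ^ 2)⁻¹) ^ 2 * (1 + ((nu q a - 1) ^ 2 / nu q a) * (Q * (1 + Q ^ 2)⁻¹) ^ 2)⁻¹) := by
      rw [psi, fn_smul, fn_mul, fn_mul, fn_pow _ _ hz, fn_mul, m5, m2, fn_mul, m2]
    have e2 : 1 + ((nu q a - 1) ^ 2 / nu q a) * (Q * (1 + Q ^ 2)⁻¹) ^ 2 ≠ 0 := by
      have := m6
      rw [fn_mul, m2] at this
      exact this
    have e3 : psiF a h h1 Q = (kap q a / 4 * (1 - (nu q a)⁻¹ ^ 2)) *
        (Q / (Q ^ 2 + (Q ^ 2)⁻¹ + (nu q a + (nu q a)⁻¹))) := by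
      rw [psiF, c5, nN, ← hnu, ← hkap, inv_pow]; ring
    rw [e1, e3]
    congr 1
    have e4 : Q ^ 2 + (Q ^ 2)⁻¹ + (nu q a + (nu q a)⁻¹) =
        (1 + ((nu q a - 1) ^ 2 / nu q a) * (Q * (1 + Q ^ 2)⁻¹) ^ 2) * ((1 + Q ^ 2) ^ 2 / Q ^ 2) := by
      field_simp
      ring
    have e5 : (1 + Q ^ 2) ^ 2 / Q ^ 2 ≠ 0 := div_ne_zero (pow_ne_zero 2 hQ1) (pow_ne_zero 2 hQ0)
    rw [e4]
    field_simp

theorem pb_st (hNU : NUStatement) : PBStatement := by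
  refine ⟨2, by norm_num, fun a ha ha1 r hr hr' q hq z hz => ?_⟩
  have hz' : z ∈ ball (0 : ℂ) r := closedBall_subset_ball hr hz
  obtain ⟨h, h1, p1, p2, p3, p4, p5, p6, p7, p8⟩ := psi_data hNU ha ha1 hr hr' hq hz'
  rw [p8]
  refine (norm_psiF_le ha ha1 p1 p2 p3 p4 p6.le).trans (le_of_eq ?_)
  have h1a : 0 < 1 - a := by linarith
  rw [Real.rpow_neg h1a.le, div_eq_mul_inv]
  congr 2
  rw [Real.sqrt_eq_rpow, show (3 / 2 : ℝ) = 1 + 1 / 2 by norm_num, Real.rpow_add h1a, Real.rpow_one]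

theorem pa_st (hNU : NUStatement) : PAStatement := by
  intro a ha ha1
  have h1a : 0 < 1 - a := by linarith
  have h1a2 : 0 < 1 - a ^ 2 := by nlinarith
  have ha0 : 0 < a := by linarith
  refine ⟨18 / (1 - a) ^ 2, by positivity, fun r hr hr' q hq z hz => ?_⟩
  obtain ⟨h, h1, p1, p2, p3, p4, p5, p6, p7, p8⟩ := psi_data hNU ha ha1 hr hr' hq hz
  set Q : ℂ := fn (qh q) z with hQ
  have e : fn (((1 / (1 - a ^ 2) : ℝ) : ℂ) • qh q + ((18 / (1 - a) ^ 2 : ℝ) : ℂ) • qi q - psi q a) z =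
      ((1 / (1 - a ^ 2) : ℝ) : ℂ) * Q + ((18 / (1 - a) ^ 2 : ℝ) : ℂ) / Q - psiF a h h1 Q := by
    rw [fn_sub, fn_add, fn_smul, fn_smul, p7, p8, div_eq_mul_inv _ Q]
  rw [e]
  have s2 : Real.sqrt 2 ≤ 2 := by
    rw [Real.sqrt_le_left (by norm_num)]; norm_num
  have key := fA_quarter (C' := 1 / (1 - a ^ 2)) (lam := 18 / (1 - a) ^ 2) (Ca := 9 / (1 - a) ^ 2)
    (q := Q) (p := psiF a h h1 Q) (by positivity) (by positivity) p5 ?_
    (norm_mul_psiF_le ha ha1 p1 p2 p3 p4 p6.le) ?_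
  · set F := ((1 / (1 - a ^ 2) : ℝ) : ℂ) * Q + ((18 / (1 - a) ^ 2 : ℝ) : ℂ) / Q - psiF a h h1 Q with hF
    have h0 : 0 < F.re := lt_of_le_of_lt (abs_nonneg _) key
    refine ⟨h0, ?_⟩
    rw [sq, Complex.mul_re]
    have := sq_lt_sq' (by linarith [neg_abs_le F.im, abs_lt.1 key] : -F.re < F.im) (abs_lt.1 key).2
    nlinarith
  · have h2 := norm_psiF_le_norm ha0.le ha1 p1 p2 (q := Q) p6.le
    calc Real.sqrt 2 * ‖psiF a h h1 Q‖ ≤ 2 * (a / (2 * (1 - a ^ 2)) * ‖Q‖) := by gcongr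
      _ = a / (1 - a ^ 2) * ‖Q‖ := by field_simp
      _ ≤ 1 / (1 - a ^ 2) * ‖Q‖ := by gcongr
  · calc Real.sqrt 2 * (9 / (1 - a) ^ 2) ≤ 2 * (9 / (1 - a) ^ 2) := by gcongr
      _ = _ := by ring

end C3N.H91
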